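import Mathlib
set_option autoImplicit false
namespace Pool.Agent.Results.MP_f7573e_al.TopCoprime

/-- Product `x 0 * x 1 * ... * x k` of a nonempty sequence in a ring without unit. -/
def evalSeq {R : Type} [NonUnitalRing R] : (k : ℕ) → (Fin (k + 1) → R) → R
  | 0, x => x 0
  | k + 1, x => evalSeq k (fun i => x i.castSucc) * x (Fin.last (k + 1))

/-- Nonempty words in the letters `0, ..., n-1`; `⟨k, u⟩` is the word `u 0 u 1 ... u k` of
length `k + 1`. -/
abbrev Word (n : ℕ) : Type := Σ k : ℕ, (Fin (k + 1) → Fin n)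

/-- `R` satisfies the identity `f = 0`. -/
def Satisfies (R : Type) [NonUnitalRing R] {n : ℕ} (f : Word n →₀ ℤ) : Prop :=
  ∀ r : Fin n → R, f.sum (fun w c => c • evalSeq w.1 (fun i => r (w.2 i))) = 0

variable {R : Type} [NonUnitalRing R]

lemma evalSeq_sum {ι : Type} [Fintype ι] [DecidableEq ι] (k : ℕ) (g : Fin (k + 1) → ι → R) :
    evalSeq k (fun i => ∑ j, g i j) = ∑ φ : Fin (k + 1) → ι, evalSeq k (fun i => g i (φ i)) := by
  induction k with
  | zero =>
    show ∑ j, g 0 j = _
    refine Fintype.sum_equiv (Equiv.funUnique (Fin 1) ι).symm _ _ (fun j => ?_)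
    show g 0 j = g 0 _
    rfl
  | succ k ih =>
    show evalSeq k (fun i => ∑ j, g i.castSucc j) * ∑ j, g (Fin.last (k + 1)) j = _
    rw [ih (fun i j => g i.castSucc j), Finset.sum_mul_sum]
    rw [← Fintype.sum_prod_type']
    refine Fintype.sum_equiv ((Equiv.prodComm _ _).trans (Fin.snocEquiv (fun _ => ι))) _ _ (fun p => ?_)
    obtain ⟨φ, j⟩ := p
    show _ = evalSeq k _ * _
    simp [Fin.snocEquiv]

lemma evalSeq_zero (k : ℕ) (x : Fin (k + 1) → R) (i : Fin (k + 1)) (hi : x i = 0) :
    evalSeq k x = 0 := by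
  induction k with
  | zero =>
    have : i = 0 := Fin.ext (by omega)
    subst this
    exact hi
  | succ k ih =>
    show evalSeq k (fun i => x i.castSucc) * x (Fin.last (k + 1)) = 0
    rcases Fin.eq_castSucc_or_eq_last i with ⟨j, rfl⟩ | rfl
    · rw [ih (fun i => x i.castSucc) j hi, zero_mul]
    · rw [hi, mul_zero]

lemma incl_excl {ι : Type} [Fintype ι] [DecidableEq ι] (p : ι → Prop) [DecidablePred p] :
    (∑ T : Finset ι, (-1 : ℤ) ^ (Tᶜ).card * (if ∀ i, p i → i ∈ T then 1 else 0)) =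
      if ∀ i, p i then 1 else 0 := by
  have h := Finset.prod_add (fun _ : ι => (1 : ℤ)) (fun i => if p i then 0 else -1)
    (Finset.univ : Finset ι)
  have e1 : ∏ i : ι, ((1 : ℤ) + (if p i then 0 else -1)) = if ∀ i, p i then 1 else 0 := by
    by_cases hp : ∀ i, p i
    · rw [if_pos hp]
      exact Finset.prod_eq_one (fun i _ => by simp [hp i])
    · rw [if_neg hp]
      push Not at hp
      obtain ⟨i, hi⟩ := hp
      exact Finset.prod_eq_zero (Finset.mem_univ i) (by simp [hi])
  rw [← e1, h, Finset.powerset_univ]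
  refine Finset.sum_congr rfl (fun T _ => ?_)
  rw [Finset.prod_const_one, one_mul, ← Finset.compl_eq_univ_sdiff]
  by_cases hT : ∀ i, p i → i ∈ T
  · rw [if_pos hT, mul_one]
    rw [Finset.prod_congr rfl (g := fun _ => (-1 : ℤ)), Finset.prod_const]
    intro i hi
    rw [if_neg]
    intro hpi
    exact (Finset.mem_compl.1 hi) (hT i hpi)
  · rw [if_neg hT, mul_zero]
    push Not at hT
    obtain ⟨i, hi, hiT⟩ := hT
    symm
    exact Finset.prod_eq_zero (Finset.mem_compl.2 hiT) (by simp [hi])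


/-- the substitution `x_j ↦ sum of the y_i, i in T, w i = j` -/
noncomputable def sub {n d : ℕ} (w : Fin (d + 1) → Fin n) (y : Fin (d + 1) → R)
    (T : Finset (Fin (d + 1))) (j : Fin n) : R := by
  classical exact ∑ i, (if i ∈ T ∧ w i = j then y i else 0)

open Classical in
lemma eval_sub {n d k : ℕ} (w : Fin (d + 1) → Fin n) (y : Fin (d + 1) → R)
    (u : Fin (k + 1) → Fin n) :
    ∑ T : Finset (Fin (d + 1)), ((-1 : ℤ) ^ (Tᶜ).card) • evalSeq k (fun l => sub w y T (u l)) =
      ∑ φ : Fin (k + 1) → Fin (d + 1),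
        (if (∀ l, w (φ l) = u l) ∧ Function.Surjective φ then evalSeq k (fun l => y (φ l)) else 0) := by
  have h1 : ∀ T : Finset (Fin (d + 1)), evalSeq k (fun l => sub w y T (u l)) =
      ∑ φ : Fin (k + 1) → Fin (d + 1),
        (if (∀ l, w (φ l) = u l) then
          (if ∀ i, (∃ l, φ l = i) → i ∈ T then (1 : ℤ) else 0) • evalSeq k (fun l => y (φ l))
          else 0) := by
    intro T
    unfold sub
    rw [evalSeq_sum k (fun l i => if i ∈ T ∧ w i = u l then y i else 0)]
    refine Finset.sum_congr rfl (fun φ _ => ?_)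
    by_cases hw : ∀ l, w (φ l) = u l
    · rw [if_pos hw]
      by_cases hT : ∀ i, (∃ l, φ l = i) → i ∈ T
      · rw [if_pos hT, one_smul]
        congr 1
        funext l
        rw [if_pos ⟨hT _ ⟨l, rfl⟩, hw l⟩]
      · rw [if_neg hT, zero_smul]
        push Not at hT
        obtain ⟨i, ⟨l, rfl⟩, hi⟩ := hT
        exact evalSeq_zero k _ l (if_neg (fun h => hi h.1))
    · rw [if_neg hw]
      push Not at hw
      obtain ⟨l, hl⟩ := hw
      exact evalSeq_zero k _ l (if_neg (fun h => hl h.2))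
  simp_rw [h1, Finset.smul_sum]
  rw [Finset.sum_comm]
  refine Finset.sum_congr rfl (fun φ _ => ?_)
  by_cases hw : ∀ l, w (φ l) = u l
  · simp only [if_pos hw, smul_smul]
    have h3 : (∑ T : Finset (Fin (d + 1)), (-1 : ℤ) ^ (Tᶜ).card *
        (if ∀ i, (∃ l, φ l = i) → i ∈ T then 1 else 0)) = if ∀ i, ∃ l, φ l = i then 1 else 0 := by
      convert incl_excl (fun i => ∃ l, φ l = i)
    rw [← Finset.sum_smul, h3]
    by_cases hs : Function.Surjective φ
    · rw [if_pos (show ∀ i, ∃ l, φ l = i from hs), one_smul, if_pos ⟨hw, hs⟩]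
    · rw [if_neg (show ¬ ∀ i, ∃ l, φ l = i from hs), zero_smul, if_neg (fun h => hs h.2)]
  · rw [if_neg (fun h => hw h.1)]
    simp [if_neg hw]

open Classical in
lemma polar {n d : ℕ} (f : Word n →₀ ℤ) (hR : Satisfies R f)
    (hd : ∀ w ∈ f.support, w.1 ≤ d) (w : Fin (d + 1) → Fin n) (y : Fin (d + 1) → R) :
    ∑ σ : Equiv.Perm (Fin (d + 1)), f ⟨d, fun i => w (σ i)⟩ • evalSeq d (fun i => y (σ i)) = 0 := by
  have h0 : ∑ T : Finset (Fin (d + 1)), ((-1 : ℤ) ^ (Tᶜ).card) •
      f.sum (fun v c => c • evalSeq v.1 (fun l => sub w y T (v.2 l))) = 0 :=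
    Finset.sum_eq_zero (fun T _ => by rw [hR (sub w y T), smul_zero])
  unfold Finsupp.sum at h0
  simp_rw [Finset.smul_sum] at h0
  rw [Finset.sum_comm] at h0
  have h1 : ∀ v ∈ f.support, ∑ T : Finset (Fin (d + 1)), ((-1 : ℤ) ^ (Tᶜ).card) •
      f v • evalSeq v.1 (fun l => sub w y T (v.2 l)) =
      ∑ σ : Equiv.Perm (Fin (d + 1)), (if v = ⟨d, fun i => w (σ i)⟩ then
        f ⟨d, fun i => w (σ i)⟩ • evalSeq d (fun i => y (σ i)) else 0) := by
    rintro ⟨k, u⟩ hv
    have hk : k ≤ d := hd _ hv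
    have e1 : ∑ T : Finset (Fin (d + 1)), ((-1 : ℤ) ^ (Tᶜ).card) •
        f ⟨k, u⟩ • evalSeq k (fun l => sub w y T (u l)) = f ⟨k, u⟩ •
        ∑ T : Finset (Fin (d + 1)), ((-1 : ℤ) ^ (Tᶜ).card) •
          evalSeq k (fun l => sub w y T (u l)) := by
      rw [Finset.smul_sum]
      refine Finset.sum_congr rfl (fun T _ => ?_)
      rw [smul_comm]
    show ∑ T : Finset (Fin (d + 1)), ((-1 : ℤ) ^ (Tᶜ).card) •
        f ⟨k, u⟩ • evalSeq k (fun l => sub w y T (u l)) = _
    rw [e1, eval_sub]
    rcases hk.lt_or_eq with hlt | rfl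
    · rw [Finset.sum_eq_zero, smul_zero, Finset.sum_eq_zero]
      · intro σ _
        rw [if_neg]
        intro h
        exact hlt.ne (congrArg Sigma.fst h)
      · intro φ _
        rw [if_neg]
        rintro ⟨_, hs⟩
        have := Fintype.card_le_of_surjective φ hs
        simp at this
        omega
    · rw [Finset.smul_sum]
      rw [← Finset.sum_filter_add_sum_filter_not (s := (Finset.univ : Finset (Fin (k + 1) → Fin (k + 1))))
        (p := fun φ => Function.Bijective φ)]
      rw [Finset.sum_eq_zero (s := Finset.filter (fun φ => ¬ Function.Bijective φ) _), add_zero]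
      · symm
        refine Finset.sum_bij (fun σ _ => (σ : Fin (k + 1) → Fin (k + 1))) ?_ ?_ ?_ ?_
        · intro σ _; exact Finset.mem_filter.2 ⟨Finset.mem_univ _, σ.bijective⟩
        · intro σ _ τ _ h; exact DFunLike.coe_injective h
        · intro φ hφ
          rw [Finset.mem_filter] at hφ
          exact ⟨Equiv.ofBijective φ hφ.2, Finset.mem_univ _, rfl⟩
        · intro σ _
          by_cases h : (⟨k, u⟩ : Word n) = ⟨k, fun i => w (σ i)⟩
          · have hu : u = fun i => w (σ i) := by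
              have := h
              simpa using this
            subst hu
            rw [if_pos rfl, if_pos ⟨fun l => rfl, σ.surjective⟩]
          · rw [if_neg h, if_neg, smul_zero]
            rintro ⟨h2, _⟩
            apply h
            have : u = fun i => w (σ i) := by funext l; exact (h2 l).symm
            rw [this]
      · intro φ hφ
        rw [Finset.mem_filter] at hφ
        rw [if_neg, smul_zero]
        rintro ⟨_, hs⟩
        exact hφ.2 ⟨Finite.injective_iff_surjective.2 hs, hs⟩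
  rw [Finset.sum_congr rfl h1, Finset.sum_comm] at h0
  rw [← h0]
  refine Finset.sum_congr rfl (fun σ _ => ?_)
  rw [Finset.sum_ite_eq']
  by_cases h : (⟨d, fun i => w (σ i)⟩ : Word n) ∈ f.support
  · rw [if_pos h]
  · rw [if_neg h, Finsupp.notMem_support_iff.1 h, zero_smul]

/-- If a ring satisfies an identity `f = 0` of degree `d + 1` such that the coefficients of the
words of length `d + 1` are coprime, then it satisfies a multilinear identity of degree `d + 1`
in which the coefficient of `x_0 x_1 ... x_d` is `1`. -/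
theorem result (R : Type) [NonUnitalRing R] (n d : ℕ) (f : Word n →₀ ℤ)
    (hd : ∀ w ∈ f.support, w.1 ≤ d)
    (hcop : Ideal.span (Set.range fun u : Fin (d + 1) → Fin n => f ⟨d, u⟩) = ⊤)
    (hR : Satisfies R f) :
    ∃ α : Equiv.Perm (Fin (d + 1)) → ℤ, α 1 = 1 ∧
      ∀ x : Fin (d + 1) → R, ∑ σ, α σ • evalSeq d (fun i => x (σ i)) = 0 := by
  have h1 : (1 : ℤ) ∈ Ideal.span (Set.range fun u : Fin (d + 1) → Fin n => f ⟨d, u⟩) := by
    rw [hcop]; trivial
  obtain ⟨c, hc⟩ := Ideal.mem_span_range_iff_exists_fun.1 h1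
  refine ⟨fun σ => ∑ u, c u * f ⟨d, fun i => u (σ i)⟩, ?_, ?_⟩
  · simpa using hc
  · intro x
    simp_rw [Finset.sum_smul, mul_smul]
    rw [Finset.sum_comm]
    refine Finset.sum_eq_zero (fun u _ => ?_)
    rw [← Finset.smul_sum, polar f hR hd u x, smul_zero]

end Pool.Agent.Results.MP_f7573e_al.TopCoprime
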