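import Mathlib
import Pool.Agent.Results.MP_f7573e_al.TopCoprime
set_option autoImplicit false
namespace Pool.Agent.Results.MP_f7573e_al.PrimeChar

open Pool.Agent.Results.MP_f7573e_al.TopCoprime

variable {R : Type} [NonUnitalRing R]

/-- extend a permutation by fixing the last point -/
def ext {k : ℕ} (σ : Equiv.Perm (Fin (k + 1))) : Equiv.Perm (Fin (k + 2)) where
  toFun := Fin.snoc (α := fun _ => Fin (k + 2)) (fun i => (σ i).castSucc) (Fin.last (k + 1))
  invFun := Fin.snoc (α := fun _ => Fin (k + 2)) (fun i => (σ.symm i).castSucc) (Fin.last (k + 1))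
  left_inv := by
    intro i
    refine Fin.lastCases ?_ (fun j => ?_) i
    · simp
    · simp
  right_inv := by
    intro i
    refine Fin.lastCases ?_ (fun j => ?_) i
    · simp
    · simp

lemma ext_castSucc {k : ℕ} (σ : Equiv.Perm (Fin (k + 1))) (i : Fin (k + 1)) :
    ext σ i.castSucc = (σ i).castSucc := by
  simp [ext]

lemma ext_last {k : ℕ} (σ : Equiv.Perm (Fin (k + 1))) :
    ext σ (Fin.last (k + 1)) = Fin.last (k + 1) := by
  simp [ext]

lemma ext_eq_one {k : ℕ} (σ : Equiv.Perm (Fin (k + 1))) : ext σ = 1 ↔ σ = 1 := by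
  constructor
  · intro h
    ext i
    have := congrArg (fun τ : Equiv.Perm (Fin (k + 2)) => τ i.castSucc) h
    simp only [ext_castSucc, Equiv.Perm.one_apply] at this
    rw [Fin.castSucc_injective _ this]
    rfl
  · rintro rfl
    ext i
    refine Fin.lastCases ?_ (fun j => ?_) i
    · rw [ext_last]; rfl
    · rw [ext_castSucc]; rfl

/-- `R` satisfies a multilinear identity of degree `k + 1` with coefficient `1` at the identity. -/
def HasUnitMultilinear (R : Type) [NonUnitalRing R] (k : ℕ) : Prop :=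
  ∃ α : Equiv.Perm (Fin (k + 1)) → ℤ, α 1 = 1 ∧
    ∀ x : Fin (k + 1) → R, ∑ σ, α σ • evalSeq k (fun i => x (σ i)) = 0

lemma step {k : ℕ} (h : HasUnitMultilinear R k) : HasUnitMultilinear R (k + 1) := by
  classical
  obtain ⟨α, h1, h2⟩ := h
  refine ⟨fun τ => ∑ σ, if ext σ = τ then α σ else 0, ?_, ?_⟩
  · simp only [ext_eq_one]
    simpa using h1
  · intro x
    simp_rw [Finset.sum_smul]
    rw [Finset.sum_comm]
    have e : ∀ σ : Equiv.Perm (Fin (k + 1)), (∑ τ : Equiv.Perm (Fin (k + 2)),
        (if ext σ = τ then α σ else 0) • evalSeq (k + 1) (fun i => x (τ i))) =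
        (α σ • evalSeq k (fun i => (fun j : Fin (k + 1) => x j.castSucc) (σ i))) *
          x (Fin.last (k + 1)) := by
      intro σ
      rw [Finset.sum_eq_single (ext σ)]
      · rw [if_pos rfl]
        show α σ • (evalSeq k (fun i => x (ext σ i.castSucc)) * x (ext σ (Fin.last (k + 1)))) = _
        rw [ext_last, smul_mul_assoc]
        simp_rw [ext_castSucc]
      · intro τ _ hτ
        rw [if_neg (fun h => hτ h.symm), zero_smul]
      · intro h; exact absurd (Finset.mem_univ _) h
    simp_rw [e]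
    rw [← Finset.sum_mul]
    exact (congrArg (· * x (Fin.last (k + 1))) (h2 (fun j => x j.castSucc))).trans (zero_mul _)

lemma mono {k d : ℕ} (hkd : k ≤ d) (h : HasUnitMultilinear R k) : HasUnitMultilinear R d := by
  induction d, hkd using Nat.le_induction with
  | base => exact h
  | succ d _ ih => exact step ih

/-- Let `p` be a prime and `R` a ring with `p R = 0`. If `R` satisfies an identity `f = 0` of degree
at most `d + 1` whose coefficients are not all divisible by `p` (in particular if they are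
coprime), then `R` satisfies a multilinear identity of degree `d + 1` in which the coefficient of
`x_0 x_1 ... x_d` is `1`. -/
theorem result (p : ℕ) (hp : p.Prime) (R : Type) [NonUnitalRing R] (hpR : ∀ r : R, (p : ℤ) • r = 0)
    (n d : ℕ) (f : Word n →₀ ℤ) (hd : ∀ w ∈ f.support, w.1 ≤ d)
    (hf : ∃ w, ¬ (p : ℤ) ∣ f w) (hR : Satisfies R f) :
    ∃ α : Equiv.Perm (Fin (d + 1)) → ℤ, α 1 = 1 ∧
      ∀ x : Fin (d + 1) → R, ∑ σ, α σ • evalSeq d (fun i => x (σ i)) = 0 := by
  classical
  -- a word of maximal length with coefficient prime to `p`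
  obtain ⟨w1, hw1⟩ := hf
  have hne : (f.support.filter (fun w => ¬ (p : ℤ) ∣ f w)).Nonempty := by
    refine ⟨w1, Finset.mem_filter.2 ⟨?_, hw1⟩⟩
    rw [Finsupp.mem_support_iff]
    intro h0
    exact hw1 (h0 ▸ dvd_zero _)
  obtain ⟨w, hw, hmax⟩ := Finset.exists_max_image _ (fun w : Word n => w.1) hne
  rw [Finset.mem_filter] at hw
  obtain ⟨k, u⟩ := w
  have hkd : k ≤ d := hd _ hw.1
  have hR1 : Satisfies R (f.filter (fun w => w.1 ≤ k)) := by
    intro r
    have h0 := hR r
    rw [← Finsupp.filter_add_filter_not f (fun w : Word n => w.1 ≤ k),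
      Finsupp.sum_add_index' (by intro a; exact zero_smul _ _) (by intro a b c; exact add_smul _ _ _)] at h0
    have h1 : (f.filter (fun w : Word n => ¬ w.1 ≤ k)).sum
        (fun w c => c • evalSeq w.1 (fun i => r (w.2 i))) = 0 := by
      refine Finset.sum_eq_zero (fun v hv => ?_)
      rw [Finsupp.support_filter, Finset.mem_filter] at hv
      have hdv : (p : ℤ) ∣ f v := by
        by_contra hc
        exact hv.2 (hmax v (Finset.mem_filter.2 ⟨hv.1, hc⟩))
      show (f.filter (fun w : Word n => ¬ w.1 ≤ k)) v • evalSeq v.1 (fun i => r (v.2 i)) = 0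
      rw [Finsupp.filter_apply_pos (fun w : Word n => ¬ w.1 ≤ k) f hv.2]
      obtain ⟨c, hc⟩ := hdv
      rw [hc, mul_comm, mul_smul, hpR, smul_zero]
    rw [h1, add_zero] at h0
    exact h0
  have hpol := fun y => polar (f.filter (fun w => w.1 ≤ k)) hR1 (d := k)
    (fun v hv => by
      rw [Finsupp.support_filter, Finset.mem_filter] at hv
      exact hv.2) u y
  have hcop : IsCoprime (p : ℤ) (f ⟨k, u⟩) :=
    ((Nat.prime_iff_prime_int.1 hp).coprime_iff_not_dvd).2 hw.2
  obtain ⟨a, b, hab⟩ := hcop
  refine mono hkd ⟨fun σ => b * f ⟨k, fun i => u (σ i)⟩ + (if σ = 1 then a * p else 0), ?_, ?_⟩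
  · simp only [if_true, Equiv.Perm.one_apply]
    rw [← hab]; ring
  · intro x
    have h2 := hpol x
    have h3 : ∀ σ : Equiv.Perm (Fin (k + 1)),
        (b * f ⟨k, fun i => u (σ i)⟩ + (if σ = 1 then a * p else 0)) •
          evalSeq k (fun i => x (σ i)) =
        b • ((f.filter (fun w : Word n => w.1 ≤ k)) ⟨k, fun i => u (σ i)⟩ •
          evalSeq k (fun i => x (σ i))) := by
      intro σ
      rw [Finsupp.filter_apply_pos (fun w : Word n => w.1 ≤ k) f
        (show (⟨k, fun i => u (σ i)⟩ : Word n).1 ≤ k from le_refl k), add_smul, mul_smul]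
      split_ifs
      · rw [mul_smul, hpR, smul_zero, add_zero]
      · rw [zero_smul, add_zero]
    simp_rw [h3]
    rw [← Finset.smul_sum, h2, smul_zero]

end Pool.Agent.Results.MP_f7573e_al.PrimeChar
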