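import Mathlib
import Pool.Agent.Results.MP_f7573e_al.TopCoprime
set_option autoImplicit false
namespace Pool.Agent.Results.MP_f7573e_al.TorsionFree

open Pool.Agent.Results.MP_f7573e_al.TopCoprime

/-- Suppose `R` satisfies an identity `f = 0` of degree `d + 1`, and let `c` be a generator of the
ideal of `ℤ` generated by the coefficients of the words of length `d + 1` (their gcd). If
multiplication by `c` is injective on `R` (for example if `c ≠ 0` and the additive group of `R` is
torsion-free), then `R` satisfies a multilinear identity of degree `d + 1` in which the coefficient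
of `x_0 x_1 ... x_d` is `1`. -/
theorem result (R : Type) [NonUnitalRing R] (n d : ℕ) (f : Word n →₀ ℤ)
    (hd : ∀ w ∈ f.support, w.1 ≤ d) (c : ℤ) (hc0 : c ≠ 0)
    (hc : Ideal.span (Set.range fun u : Fin (d + 1) → Fin n => f ⟨d, u⟩) = Ideal.span {c})
    (hinj : ∀ r : R, c • r = 0 → r = 0) (hR : Satisfies R f) :
    ∃ α : Equiv.Perm (Fin (d + 1)) → ℤ, α 1 = 1 ∧
      ∀ x : Fin (d + 1) → R, ∑ σ, α σ • evalSeq d (fun i => x (σ i)) = 0 := by
  have h1 : c ∈ Ideal.span (Set.range fun u : Fin (d + 1) → Fin n => f ⟨d, u⟩) := by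
    rw [hc]; exact Ideal.mem_span_singleton_self c
  obtain ⟨b, hb⟩ := Ideal.mem_span_range_iff_exists_fun.1 h1
  have hdvd : ∀ u : Fin (d + 1) → Fin n, c ∣ f ⟨d, u⟩ := by
    intro u
    rw [← Ideal.mem_span_singleton, ← hc]
    exact Ideal.subset_span ⟨u, rfl⟩
  choose g hg using hdvd
  have hsum : ∑ u, b u * g u = 1 := by
    apply mul_left_cancel₀ hc0
    rw [mul_one, Finset.mul_sum]
    calc ∑ u, c * (b u * g u) = ∑ u, b u * f ⟨d, u⟩ :=
          Finset.sum_congr rfl (fun u _ => by rw [hg u]; ring)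
      _ = c := hb
  refine ⟨fun σ => ∑ u, b u * g (fun i => u (σ i)), ?_, ?_⟩
  · simpa using hsum
  · intro x
    simp_rw [Finset.sum_smul, mul_smul]
    rw [Finset.sum_comm]
    refine Finset.sum_eq_zero (fun u _ => ?_)
    rw [← Finset.smul_sum]
    have h2 : ∑ σ : Equiv.Perm (Fin (d + 1)), g (fun i => u (σ i)) • evalSeq d (fun i => x (σ i)) = 0 := by
      apply hinj
      rw [Finset.smul_sum, ← polar f hR hd u x]
      refine Finset.sum_congr rfl (fun σ _ => ?_)
      rw [smul_smul, ← hg]
    rw [h2, smul_zero]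

end Pool.Agent.Results.MP_f7573e_al.TorsionFree
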